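import Mathlib

/-!
# The degree of a function whose support lies in parity conditions

`K` is a field of characteristic different from `2`. If a nonzero function on the cube is a
polynomial of degree `D` over `K`, and on its support the parities of the bits in disjoint sets
`B r` are constant, then `2 D ≥ ∑ |B r|`.
-/

set_option autoImplicit false

namespace Pool.Agent.R617.OD

open Finset

variable {E K : Type} [Fintype E] [DecidableEq E] [Field K]

/-- the bits as elements of the field -/
def ind (K : Type) [Field K] (x : E → Bool) (e : E) : K := if x e = true then 1 else 0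

/-- the sign of a bit -/
def sg (K : Type) [Field K] (b : Bool) : K := if b = true then -1 else 1

/-- characters -/
def chi (K : Type) [Field K] (S : Finset E) (x : E → Bool) : K := ∏ e ∈ S, sg K (x e)

/-- Fourier coefficients (not normalized) -/
def hat (f : (E → Bool) → K) (S : Finset E) : K := ∑ x, f x * chi K S x

lemma sg_sq (b : Bool) : sg K b * sg K b = 1 := by
  cases b <;> simp [sg]

lemma sg_not (b : Bool) : sg K (!b) = - sg K b := by
  cases b <;> simp [sg]

lemma chi_symmDiff (S B : Finset E) (x : E → Bool) :
    chi K (symmDiff S B) x = chi K S x * chi K B x := by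
  have h : ∀ S : Finset E, chi K S x = ∏ e, if e ∈ S then sg K (x e) else 1 := by
    intro S
    unfold chi
    rw [Finset.prod_ite_mem, Finset.univ_inter]
  rw [h, h, h, ← Finset.prod_mul_distrib]
  apply Finset.prod_congr rfl
  intro e _
  by_cases h1 : e ∈ S <;> by_cases h2 : e ∈ B <;> simp [Finset.mem_symmDiff, h1, h2, sg_sq]

/-- flip one bit -/
def flip (e : E) (x : E → Bool) : E → Bool := Function.update x e (!x e)

lemma flip_flip (e : E) (x : E → Bool) : flip e (flip e x) = x := by
  funext a
  unfold flip
  by_cases h : a = e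
  · subst h
    simp
  · simp [Function.update_of_ne h]

lemma chi_flip {S : Finset E} {e : E} (he : e ∈ S) (x : E → Bool) :
    chi K S (flip e x) = - chi K S x := by
  unfold chi
  rw [← Finset.mul_prod_erase S _ he, ← Finset.mul_prod_erase S _ he]
  have h1 : sg K (flip e x e) = - sg K (x e) := by
    unfold flip
    rw [Function.update_self, sg_not]
  have h2 : ∏ a ∈ S.erase e, sg K (flip e x a) = ∏ a ∈ S.erase e, sg K (x a) := by
    apply Finset.prod_congr rfl
    intro a ha
    unfold flip
    rw [Function.update_of_ne (Finset.ne_of_mem_erase ha)]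
  rw [h1, h2]
  ring

/-- coefficients above the degree vanish -/
lemma hat_eq_zero (h2 : (2 : K) ≠ 0) (P : MvPolynomial E K) (S : Finset E)
    (hS : P.totalDegree < S.card) : hat (fun x => MvPolynomial.eval (ind K x) P) S = 0 := by
  unfold hat
  simp_rw [MvPolynomial.eval_eq', Finset.sum_mul]
  rw [Finset.sum_comm]
  apply Finset.sum_eq_zero
  intro m hm
  -- some element of `S` does not occur in the monomial
  have hex : ∃ e ∈ S, m e = 0 := by
    by_contra hcon
    push Not at hcon
    have h3 : S ⊆ m.support := fun e he => Finsupp.mem_support_iff.2 (hcon e he)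
    have h4 := Finset.card_le_card h3
    have h5 : m.support.card ≤ m.sum (fun _ e => e) := by
      rw [Finsupp.sum, Finset.card_eq_sum_ones]
      apply Finset.sum_le_sum
      intro e he
      exact Nat.one_le_iff_ne_zero.2 (Finsupp.mem_support_iff.1 he)
    have h6 : m.sum (fun _ e => e) ≤ P.totalDegree := MvPolynomial.le_totalDegree hm
    omega
  obtain ⟨e, he, hme⟩ := hex
  set g : (E → Bool) → K := fun x => MvPolynomial.coeff m P * (∏ i, ind K x i ^ m i) * chi K S x
    with hg
  have h3 : ∀ x, g (flip e x) = - g x := by
    intro x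
    simp only [hg]
    rw [chi_flip he]
    have h4 : ∏ i, ind K (flip e x) i ^ m i = ∏ i, ind K x i ^ m i := by
      apply Finset.prod_congr rfl
      intro i _
      by_cases hi : i = e
      · subst hi
        rw [hme, pow_zero, pow_zero]
      · unfold ind flip
        rw [Function.update_of_ne hi]
    rw [h4]
    ring
  have h4 : ∑ x, g x = ∑ x, g (flip e x) :=
    Finset.sum_bij' (fun x _ => flip e x) (fun x _ => flip e x) (fun _ _ => Finset.mem_univ _)
      (fun _ _ => Finset.mem_univ _) (fun x _ => flip_flip e x) (fun x _ => flip_flip e x)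
      (fun x _ => by rw [flip_flip])
  rw [Finset.sum_congr rfl (fun x _ => h3 x), Finset.sum_neg_distrib] at h4
  have h5 : (2 : K) * ∑ x, g x = 0 := by
    rw [two_mul]
    nth_rewrite 1 [h4]
    rw [neg_add_cancel]
  exact (mul_eq_zero.1 h5).resolve_left h2

/-- a nonzero function has a nonzero coefficient -/
lemma exists_hat (h2 : (2 : K) ≠ 0) (f : (E → Bool) → K) (x0 : E → Bool) (h0 : f x0 ≠ 0) :
    ∃ S, hat f S ≠ 0 := by
  by_contra hcon
  push Not at hcon
  have h1 : ∑ S : Finset E, chi K S x0 * hat f S = f x0 * 2 ^ (Fintype.card E) := by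
    unfold hat
    simp_rw [Finset.mul_sum]
    rw [Finset.sum_comm]
    have h3 : ∀ x : E → Bool, ∑ S : Finset E, chi K S x0 * (f x * chi K S x) =
        f x * ∏ e, (1 + sg K (x0 e) * sg K (x e)) := by
      intro x
      have h4 : ∏ e, (1 + sg K (x0 e) * sg K (x e)) =
          ∑ S : Finset E, ∏ e ∈ S, (sg K (x0 e) * sg K (x e)) := by
        rw [Finset.prod_one_add]
        rw [Finset.powerset_univ]
      rw [h4, Finset.mul_sum]
      apply Finset.sum_congr rfl
      intro S _
      unfold chi
      rw [Finset.prod_mul_distrib]
      ring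
    rw [Finset.sum_congr rfl (fun x _ => h3 x)]
    rw [Finset.sum_eq_single x0]
    · have h4 : ∀ e, (1 : K) + sg K (x0 e) * sg K (x0 e) = 2 := by
        intro e
        rw [sg_sq]
        norm_num
      rw [Finset.prod_congr rfl (fun e _ => h4 e), Finset.prod_const, Finset.card_univ]
    · intro x _ hx
      obtain ⟨e, he⟩ := Function.ne_iff.1 hx
      have h4 : (1 : K) + sg K (x0 e) * sg K (x e) = 0 := by
        have h5 : x e = !x0 e := by
          cases h6 : x e <;> cases h7 : x0 e <;> simp_all
        rw [h5, sg_not, mul_neg, sg_sq]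
        ring
      rw [Finset.prod_eq_zero (Finset.mem_univ e) h4, mul_zero]
    · intro h
      exact absurd (Finset.mem_univ _) h
  rw [Finset.sum_eq_zero (fun S _ => by rw [hcon S, mul_zero])] at h1
  exact (mul_ne_zero h0 (pow_ne_zero _ h2)) h1.symm

lemma hat_symmDiff (f : (E → Bool) → K) (S B : Finset E) (c : K)
    (h : ∀ x, f x ≠ 0 → chi K B x = c) : hat f (symmDiff S B) = c * hat f S := by
  unfold hat
  rw [Finset.mul_sum]
  apply Finset.sum_congr rfl
  intro x _
  by_cases hx : f x = 0
  · rw [hx]; ring
  · rw [chi_symmDiff, h x hx]; ring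

/-- **the degree bound** -/
theorem degree_ge (h2 : (2 : K) ≠ 0) {ι : Type} [DecidableEq ι] (R : Finset ι)
    (B : ι → Finset E) (hB : ∀ r s, r ≠ s → Disjoint (B r) (B s)) (c : ι → K)
    (hc : ∀ r, c r ≠ 0) (P : MvPolynomial E K) (x0 : E → Bool)
    (h0 : MvPolynomial.eval (ind K x0) P ≠ 0)
    (h : ∀ r ∈ R, ∀ x, MvPolynomial.eval (ind K x) P ≠ 0 → chi K (B r) x = c r) :
    ∑ r ∈ R, (B r).card ≤ 2 * P.totalDegree := by
  set f : (E → Bool) → K := fun x => MvPolynomial.eval (ind K x) P with hf
  have key : ∀ R' ⊆ R, ∃ S, hat f S ≠ 0 ∧ ∀ r ∈ R', (B r).card ≤ 2 * (S ∩ B r).card := by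
    intro R'
    induction R' using Finset.induction_on with
    | empty =>
      intro _
      obtain ⟨S, hS⟩ := exists_hat h2 f x0 h0
      exact ⟨S, hS, by simp⟩
    | insert r0 R' hr0 ih =>
      intro hsub
      obtain ⟨S, hS, hS2⟩ := ih ((Finset.subset_insert _ _).trans hsub)
      by_cases hcase : (B r0).card ≤ 2 * (S ∩ B r0).card
      · refine ⟨S, hS, ?_⟩
        intro r hr
        rcases Finset.mem_insert.1 hr with rfl | hr
        · exact hcase
        · exact hS2 r hr
      · refine ⟨symmDiff S (B r0), ?_, ?_⟩
        · rw [hat_symmDiff f S (B r0) (c r0) (h r0 (hsub (Finset.mem_insert_self _ _)))]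
          exact mul_ne_zero (hc r0) hS
        · intro r hr
          rcases Finset.mem_insert.1 hr with rfl | hr
          · have e1 : symmDiff S (B r) ∩ B r = B r \ S := by
              ext e
              simp only [Finset.mem_inter, Finset.mem_symmDiff, Finset.mem_sdiff]
              tauto
            have e2 := Finset.card_sdiff_add_card_inter (B r) S
            rw [Finset.inter_comm] at e2
            rw [e1]
            omega
          · have hne : r ≠ r0 := fun h => hr0 (h ▸ hr)
            have e1 : symmDiff S (B r0) ∩ B r = S ∩ B r := by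
              ext e
              simp only [Finset.mem_inter, Finset.mem_symmDiff]
              constructor
              · rintro ⟨h3 | h3, h4⟩
                · exact ⟨h3.1, h4⟩
                · exact absurd h3.1 (Finset.disjoint_left.1 (hB r r0 hne) h4)
              · rintro ⟨h3, h4⟩
                exact ⟨Or.inl ⟨h3, Finset.disjoint_left.1 (hB r r0 hne) h4⟩, h4⟩
            rw [e1]
            exact hS2 r hr
  obtain ⟨S, hS, hS2⟩ := key R (Finset.Subset.refl _)
  have hdeg : S.card ≤ P.totalDegree := by
    by_contra hcon
    exact hS (hat_eq_zero h2 P S (not_le.1 hcon))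
  have hsum : ∑ r ∈ R, (S ∩ B r).card ≤ S.card := by
    rw [← Finset.card_biUnion]
    · apply Finset.card_le_card
      intro e he
      rw [Finset.mem_biUnion] at he
      obtain ⟨r, -, hr⟩ := he
      exact (Finset.mem_inter.1 hr).1
    · intro r _ s _ hrs
      exact (hB r s hrs).mono Finset.inter_subset_right Finset.inter_subset_right
  calc ∑ r ∈ R, (B r).card ≤ ∑ r ∈ R, 2 * (S ∩ B r).card := Finset.sum_le_sum hS2
    _ = 2 * ∑ r ∈ R, (S ∩ B r).card := by rw [Finset.mul_sum]
    _ ≤ 2 * P.totalDegree := Nat.mul_le_mul_left 2 (hsum.trans hdeg)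

/-- signs of sums in `ZMod 2` -/
def sz (K : Type) [Field K] (a : ZMod 2) : K := if a = 1 then -1 else 1

lemma sz_ne_zero (a : ZMod 2) : sz K a ≠ 0 := by
  unfold sz
  split_ifs <;> simp

lemma chi_eq (S : Finset E) (x : E → Bool) :
    chi K S x = sz K (∑ e ∈ S, (if x e = true then (1 : ZMod 2) else 0)) := by
  induction S using Finset.induction_on with
  | empty => simp [chi, sz]
  | insert e S he ih =>
    have h1 : chi K (insert e S) x = sg K (x e) * chi K S x := by
      unfold chi
      rw [Finset.prod_insert he]
    rw [h1, ih, Finset.sum_insert he]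
    generalize ∑ e ∈ S, (if x e = true then (1 : ZMod 2) else 0) = a
    cases x e
    · simp [sg]
    · have h01 : a = 0 ∨ a = 1 := by revert a; decide
      rcases h01 with rfl | rfl
      · simp [sg, sz]
      · have : (1 : ZMod 2) + 1 = 0 := by decide
        simp [sg, sz, this]

/-- every function of the bits in a finite set `B` is a polynomial of degree at most `|B|` -/
lemma exists_polyK (B : Finset E) : ∀ (F : (E → Bool) → K),
    (∀ x y, (∀ v ∈ B, x v = y v) → F x = F y) →
    ∃ P : MvPolynomial E K, P.totalDegree ≤ B.card ∧
      ∀ x, MvPolynomial.eval (ind K x) P = F x := by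
  induction B using Finset.induction_on with
  | empty =>
    intro F hF
    refine ⟨MvPolynomial.C (F (fun _ => false)), ?_, fun x => ?_⟩
    · rw [MvPolynomial.totalDegree_C]
      exact Nat.zero_le _
    · rw [MvPolynomial.eval_C]
      exact hF _ _ (by simp)
  | insert v B hv ih =>
    intro F hF
    have hdep : ∀ a : Bool, ∀ x y : E → Bool, (∀ u ∈ B, x u = y u) →
        F (Function.update x v a) = F (Function.update y v a) := by
      intro a x y h
      apply hF
      intro u hu
      by_cases huv : u = v
      · subst huv
        simp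
      · rw [Function.update_of_ne huv, Function.update_of_ne huv]
        exact h u (Finset.mem_of_mem_insert_of_ne hu huv)
    obtain ⟨P0, h0, h0'⟩ := ih (fun x => F (Function.update x v false)) (hdep false)
    obtain ⟨P1, h1, h1'⟩ := ih (fun x => F (Function.update x v true)) (hdep true)
    refine ⟨P0 + MvPolynomial.X v * (P1 - P0), ?_, ?_⟩
    · rw [Finset.card_insert_of_notMem hv]
      refine (MvPolynomial.totalDegree_add _ _).trans (max_le (h0.trans (Nat.le_succ _)) ?_)
      refine (MvPolynomial.totalDegree_mul _ _).trans ?_
      rw [MvPolynomial.totalDegree_X]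
      have := (MvPolynomial.totalDegree_sub P1 P0).trans (max_le h1 h0)
      omega
    · intro x
      rw [map_add, map_mul, MvPolynomial.eval_X, map_sub, h0', h1']
      unfold ind
      cases h : x v
      · have h2 : Function.update x v false = x := by rw [← h]; exact Function.update_eq_self v x
        simp [h2]
      · have h2 : Function.update x v true = x := by rw [← h]; exact Function.update_eq_self v x
        simp [h2]

end Pool.Agent.R617.OD
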