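import Pool.Agent.R617.OD.Four
import Pool.Agent.R617.LD.Read

/-!
# Online matrix-vector multiplication over `ZMod 2` with memory of small degree over a field

The memory may be rewritten completely between two vectors, free of charge and with full knowledge
of the matrix, of the coins and of the earlier vectors; only probes count. `K` is a field of
characteristic different from `2`.
-/

set_option autoImplicit false

namespace Pool.Agent.R617.OD

open Finset
open Pool.Agent.R617.LD (Prog IsProb)

/-- vectors over `ZMod 2` -/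
abbrev Vec (n : ℕ) : Type := Fin n → ZMod 2

/-- matrices over `ZMod 2` -/
abbrev Mat (n : ℕ) : Type := Matrix (Fin n) (Fin n) (ZMod 2)

/-- A randomised algorithm for online matrix-vector multiplication: `Ω` are the coins,
`mem ω M h` is the content of the memory (cells with addresses in `A` and `w` bits) when the vectors
of the list `h` have been processed, and `prog ω h v` is the adaptive program run on the next
vector `v`; it answers, for every row, a bit or nothing. -/
structure Alg (n : ℕ) (Ω A : Type) (w : ℕ) where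
  mem : Ω → Mat n → List (Vec n) → A → Fin w → Bool
  prog : Ω → List (Vec n) → Vec n → Prog A (Fin w → Bool) (Fin n → Option (ZMod 2))

/-- the vectors that precede the `q`-th one -/
def before {n : ℕ} (vs : Fin n → Vec n) (q : Fin n) : List (Vec n) := (List.ofFn vs).take q

variable {n : ℕ} {Ω A : Type} {w : ℕ}

/-- the answer to the `q`-th vector of the stream `vs` -/
def Alg.answer (alg : Alg n Ω A w) (ω : Ω) (M : Mat n) (vs : Fin n → Vec n) (q : Fin n) :
    Fin n → Option (ZMod 2) :=
  (alg.prog ω (before vs q) (vs q)).out (alg.mem ω M (before vs q))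

/-- the number of probes for the `q`-th vector of the stream `vs` -/
def Alg.probes (alg : Alg n Ω A w) (ω : Ω) (M : Mat n) (vs : Fin n → Vec n) (q : Fin n) : ℕ :=
  ((alg.prog ω (before vs q) (vs q)).addrs (alg.mem ω M (before vs q))).length

/-- For given coins and earlier vectors, every bit of every cell is a polynomial of degree at most
`d` over the field `K` in the entries `0`, `1` of the matrix. -/
def Alg.DegreeLE (K : Type) [Field K] (d : ℕ) (alg : Alg n Ω A w) : Prop :=
  ∀ (ω : Ω) (h : List (Vec n)) (a : A) (i : Fin w),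
    ∃ P : MvPolynomial (Fin n × Fin n) K, P.totalDegree ≤ d ∧ ∀ M : Mat n,
      (if alg.mem ω M h a i = true then (1 : K) else 0) =
        MvPolynomial.eval (fun e => if M e.1 e.2 = 1 then (1 : K) else 0) P

/-- a bit which is answered is never wrong -/
def Alg.NeverWrong (alg : Alg n Ω A w) : Prop :=
  ∀ (ω : Ω) (M : Mat n) (vs : Fin n → Vec n) (q r : Fin n) (b : ZMod 2),
    alg.answer ω M vs q r = some b → M.mulVec (vs q) r = b

/-- the matrix with given bits -/
def ofBits (x : Fin n × Fin n → Bool) : Mat n := fun r c => if x (r, c) = true then 1 else 0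

lemma ofBits_one (x : Fin n × Fin n → Bool) (K : Type) [Field K] :
    (fun e : Fin n × Fin n => if (ofBits x) e.1 e.2 = 1 then (1 : K) else 0) = ind K x := by
  funext e
  unfold ofBits ind
  cases x e <;> simp

lemma exists_bits (M : Mat n) : ∃ x, ofBits x = M := by
  refine ⟨fun e => decide (M e.1 e.2 = 1), ?_⟩
  funext r c
  unfold ofBits
  have h : ∀ a : ZMod 2, (if decide (a = 1) = true then (1 : ZMod 2) else 0) = a := by decide
  exact h _

/-- the entries of the row `r` in the columns with `v c = 1` -/
def Blk (v : Vec n) (r : Fin n) : Finset (Fin n × Fin n) :=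
  univ.filter (fun e => e.1 = r ∧ v e.2 = 1)

lemma card_Blk (v : Vec n) (r : Fin n) :
    (Blk v r).card = (univ.filter (fun c => v c = 1)).card := by
  have h : Blk v r = (univ.filter (fun c => v c = 1)).map
      ⟨fun c => (r, c), fun _ _ h => (Prod.mk.inj h).2⟩ := by
    ext ⟨a, c⟩
    rw [Blk, Finset.mem_filter, Finset.mem_map]
    constructor
    · rintro ⟨-, h1, h2⟩
      refine ⟨c, ?_, ?_⟩
      · rw [Finset.mem_filter]
        exact ⟨Finset.mem_univ _, h2⟩
      · exact Prod.ext h1.symm rfl
    · rintro ⟨c', h1, h2⟩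
      rw [Finset.mem_filter] at h1
      have h3 : (r, c') = (a, c) := h2
      obtain ⟨rfl, rfl⟩ := Prod.mk.inj h3
      exact ⟨Finset.mem_univ _, rfl, h1.2⟩
  rw [h, Finset.card_map]

lemma sum_Blk (v : Vec n) (r : Fin n) (x : Fin n × Fin n → Bool) :
    ∑ e ∈ Blk v r, (if x e = true then (1 : ZMod 2) else 0) = (ofBits x).mulVec v r := by
  unfold Blk
  rw [Finset.sum_filter, Fintype.sum_prod_type, Finset.sum_eq_single r]
  · unfold Matrix.mulVec dotProduct ofBits
    apply Finset.sum_congr rfl
    intro c _
    have h01 : ∀ a b : ZMod 2, (if b = 1 then a else 0) = a * b := by decide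
    have h2 : (if (r = r ∧ v c = 1) then (if x (r, c) = true then (1 : ZMod 2) else 0) else 0) =
        (if v c = 1 then (if x (r, c) = true then (1 : ZMod 2) else 0) else 0) := by
      simp
    rw [← h01]
    simp
  · intro a _ ha
    apply Finset.sum_eq_zero
    intro c _
    rw [if_neg]
    rintro ⟨h, -⟩
    exact ha h
  · intro h
    exact absurd (Finset.mem_univ _) h

open Classical in
/-- the count for one vector and given coins -/
lemma probes_ge (K : Type) [Field K] (h2 : (2 : K) ≠ 0) (alg : Alg n Ω A w) {d : ℕ}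
    (hd : alg.DegreeLE K d) (hw : alg.NeverWrong) (ω : Ω) (M : Mat n) (vs : Fin n → Vec n)
    (q : Fin n) :
    (univ.filter (fun r => alg.answer ω M vs q r ≠ none)).card *
      (univ.filter (fun c => vs q c = 1)).card ≤ 2 * (d * w * alg.probes ω M vs q) := by
  choose P hP1 hP2 using fun a i => hd ω (before vs q) a i
  obtain ⟨x0, rfl⟩ := exists_bits M
  set M := ofBits x0 with hM
  set l := (alg.prog ω (before vs q) (vs q)).addrs (alg.mem ω M (before vs q)) with hl
  set R := univ.filter (fun r => alg.answer ω M vs q r ≠ none) with hR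
  set s1 : Finset (A × Fin w) := l.toFinset ×ˢ univ with hs1
  set F : MvPolynomial (Fin n × Fin n) K := ∏ z ∈ s1,
    (if alg.mem ω M (before vs q) z.1 z.2 = true then P z.1 z.2 else 1 - P z.1 z.2) with hF
  have hdeg : F.totalDegree ≤ d * w * alg.probes ω M vs q := by
    refine (MvPolynomial.totalDegree_finsetProd _ _).trans ?_
    have h3 : ∀ z ∈ s1, (if alg.mem ω M (before vs q) z.1 z.2 = true then P z.1 z.2
        else 1 - P z.1 z.2).totalDegree ≤ d := by
      intro z _
      split_ifs
      · exact hP1 _ _
      · refine (MvPolynomial.totalDegree_sub _ _).trans ?_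
        rw [MvPolynomial.totalDegree_one]
        exact max_le (Nat.zero_le _) (hP1 _ _)
    refine (Finset.sum_le_sum h3).trans ?_
    rw [Finset.sum_const, hs1, Finset.card_product, Finset.card_univ, Fintype.card_fin, smul_eq_mul]
    calc l.toFinset.card * w * d ≤ l.length * w * d := by
          gcongr
          exact List.toFinset_card_le l
      _ = d * w * l.length := by ring
  have hfac : ∀ (x : Fin n × Fin n → Bool) (z : A × Fin w),
      MvPolynomial.eval (ind K x) (if alg.mem ω M (before vs q) z.1 z.2 = true then P z.1 z.2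
        else 1 - P z.1 z.2) ≠ 0 ↔
      alg.mem ω (ofBits x) (before vs q) z.1 z.2 = alg.mem ω M (before vs q) z.1 z.2 := by
    intro x z
    have h3 := hP2 z.1 z.2 (ofBits x)
    rw [ofBits_one] at h3
    cases h4 : alg.mem ω M (before vs q) z.1 z.2 <;>
      cases h5 : alg.mem ω (ofBits x) (before vs q) z.1 z.2 <;>
      rw [h5] at h3 <;> simp [← h3]
  have h := degree_ge (K := K) h2 R (Blk (vs q)) (by
      intro r s hrs
      rw [Finset.disjoint_left]
      intro e h3 h4
      rw [Blk, Finset.mem_filter] at h3 h4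
      exact hrs (h3.2.1.symm.trans h4.2.1))
    (fun r => sz K (M.mulVec (vs q) r)) (fun r => sz_ne_zero _) F x0 (by
      rw [hF, map_prod, Finset.prod_ne_zero_iff]
      intro z _
      exact (hfac x0 z).2 rfl)
    (by
      intro r hr x hx
      rw [hF, map_prod, Finset.prod_ne_zero_iff] at hx
      rw [chi_eq, sum_Blk]
      congr 1
      have hans : alg.answer ω (ofBits x) vs q = alg.answer ω M vs q := by
        unfold Alg.answer
        apply Prog.out_congr
        intro a ha
        funext i
        refine (hfac x (a, i)).1 (hx (a, i) ?_)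
        rw [hs1, Finset.mem_product, List.mem_toFinset]
        exact ⟨ha, Finset.mem_univ _⟩
      rw [hR, Finset.mem_filter] at hr
      obtain ⟨b, hb⟩ := Option.ne_none_iff_exists'.1 hr.2
      rw [hw ω M vs q r b hb]
      exact hw ω (ofBits x) vs q r b (by rw [hans]; exact hb))
  rw [Finset.sum_congr rfl (fun r _ => card_Blk (vs q) r), Finset.sum_const, smul_eq_mul] at h
  exact h.trans (Nat.mul_le_mul_left 2 hdeg)

open Classical in
/-- **the lower bound** -/
theorem degree_bound [Fintype Ω] (K : Type) [Field K] (h2 : (2 : K) ≠ 0) (alg : Alg n Ω A w) {d : ℕ}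
    (hd : alg.DegreeLE K d) (hw : alg.NeverWrong) (μ : Ω → ℝ) (hμ : IsProb μ) (ε : ℝ)
    (M : Mat n) (vs : Fin n → Vec n)
    (hε : ∀ q r : Fin n,
      ∑ ω ∈ univ.filter (fun ω => alg.answer ω M vs q r = none), μ ω ≤ ε) :
    (1 - ε) * (n * ∑ q, ((univ.filter (fun c => vs q c = 1)).card : ℝ)) ≤
      2 * d * w * ∑ ω, μ ω * ∑ q, (alg.probes ω M vs q : ℝ) := by
  have h1 : ∀ ω, μ ω * ∑ q, (((univ.filter (fun r => alg.answer ω M vs q r ≠ none)).card : ℝ) *
      ((univ.filter (fun c => vs q c = 1)).card : ℝ)) ≤
      μ ω * ∑ q, ((2 : ℝ) * d * w * (alg.probes ω M vs q : ℝ)) := by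
    intro ω
    apply mul_le_mul_of_nonneg_left _ (hμ.nonneg ω)
    apply Finset.sum_le_sum
    intro q _
    have h3 := probes_ge K h2 alg hd hw ω M vs q
    have h4 : (((univ.filter (fun r => alg.answer ω M vs q r ≠ none)).card : ℝ) *
      ((univ.filter (fun c => vs q c = 1)).card : ℝ)) ≤ 2 * (d * w * (alg.probes ω M vs q : ℝ)) := by
      exact_mod_cast h3
    linarith
  have h3 := Finset.sum_le_sum (fun ω (_ : ω ∈ (univ : Finset Ω)) => h1 ω)
  have h4 : ∑ ω, μ ω * ∑ q, ((2 : ℝ) * d * w * (alg.probes ω M vs q : ℝ)) =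
      2 * d * w * ∑ ω, μ ω * ∑ q, (alg.probes ω M vs q : ℝ) := by
    rw [Finset.mul_sum]
    apply Finset.sum_congr rfl
    intro ω _
    rw [← Finset.mul_sum]
    ring
  rw [h4] at h3
  refine le_trans ?_ h3
  rw [← mul_assoc, Finset.mul_sum]
  simp only [Finset.mul_sum]
  rw [Finset.sum_comm]
  apply Finset.sum_le_sum
  intro q _
  have h5 : ∀ r : Fin n, (1 - ε) ≤
      ∑ ω, μ ω * (if alg.answer ω M vs q r ≠ none then (1 : ℝ) else 0) := by
    intro r
    have h6 := hε q r
    have h7 : ∑ ω, μ ω * (if alg.answer ω M vs q r ≠ none then (1 : ℝ) else 0) +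
        ∑ ω ∈ univ.filter (fun ω => alg.answer ω M vs q r = none), μ ω = 1 := by
      rw [Finset.sum_filter, ← Finset.sum_add_distrib]
      refine Eq.trans ?_ hμ.sum_one
      apply Finset.sum_congr rfl
      intro ω _
      by_cases h8 : alg.answer ω M vs q r = none <;> simp [h8]
    linarith
  have h6 := Finset.sum_le_sum (fun r (_ : r ∈ (univ : Finset (Fin n))) => h5 r)
  rw [Finset.sum_const, Finset.card_univ, Fintype.card_fin, nsmul_eq_mul, Finset.sum_comm] at h6
  have h7 : ∑ ω, ∑ r, μ ω * (if alg.answer ω M vs q r ≠ none then (1 : ℝ) else 0) =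
      ∑ ω, μ ω * ((univ.filter (fun r => alg.answer ω M vs q r ≠ none)).card : ℝ) := by
    apply Finset.sum_congr rfl
    intro ω _
    rw [← Finset.mul_sum, Finset.sum_boole]
  rw [h7] at h6
  calc (1 - ε) * n * ((univ.filter (fun c => vs q c = 1)).card : ℝ) =
        n * (1 - ε) * ((univ.filter (fun c => vs q c = 1)).card : ℝ) := by ring
    _ ≤ (∑ ω, μ ω * ((univ.filter (fun r => alg.answer ω M vs q r ≠ none)).card : ℝ)) *
        ((univ.filter (fun c => vs q c = 1)).card : ℝ) :=
        mul_le_mul_of_nonneg_right h6 (Nat.cast_nonneg _)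
    _ = _ := by
        rw [Finset.sum_mul]
        apply Finset.sum_congr rfl
        intro ω _
        ring

end Pool.Agent.R617.OD
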