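import Pool.Agent.R617.OD.Model

/-! The algorithm which stores the products of blocks of `d` columns with all vectors. -/

set_option autoImplicit false

namespace Pool.Agent.R617.OD

open Finset
open Pool.Agent.R617.LD (Prog readAll readAll_out readAll_addrs)

variable {n : ℕ}

/-- the entries, `0` outside -/
def ext (M : Mat n) (i j : ℕ) : ZMod 2 := if h : i < n ∧ j < n then M ⟨i, h.1⟩ ⟨j, h.2⟩ else 0

/-- the coordinates, `0` outside -/
def vext (v : Vec n) (j : ℕ) : ZMod 2 := if h : j < n then v ⟨j, h⟩ else 0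

/-- addresses: a group of `w` rows, a block of `d` columns, a vector of length `d` -/
abbrev Adr (n d w : ℕ) : Type := (Fin (n / w + 1) × Fin (n / d + 1)) × (Fin d → ZMod 2)

/-- the cells which are read -/
noncomputable def cells (d w : ℕ) (v : Vec n) : List (Adr n d w) :=
  (univ : Finset (Fin (n / w + 1) × Fin (n / d + 1))).toList.map
    (fun gb => (gb, fun t => vext v (gb.2 * d + t)))

/-- the answer computed from the contents of the cells -/
noncomputable def outF {d w : ℕ} (hw : 0 < w) (v : Vec n) (cs : List (Fin w → Bool)) (r : Fin n) :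
    Option (ZMod 2) :=
  some ((((cells d w v).zip cs).map (fun p => if (p.1.1.1 : ℕ) = (r : ℕ) / w then
      (if p.2 ⟨(r : ℕ) % w, Nat.mod_lt _ hw⟩ = true then (1 : ZMod 2) else 0) else 0)).sum)

/-- the algorithm -/
noncomputable def blockAlg (n d w : ℕ) (hw : 0 < w) : Alg n Unit (Adr n d w) w where
  mem := fun _ M _ a l => decide (∑ t : Fin d, ext M (a.1.1 * w + l) (a.1.2 * d + t) * a.2 t = 1)
  prog := fun _ _ v => readAll (cells d w v) (outF (d := d) hw v)

lemma blockAlg_probes {d w : ℕ} (hw : 0 < w) (M : Mat n) (vs : Fin n → Vec n) (q : Fin n) :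
    (blockAlg n d w hw).probes () M vs q = (n / w + 1) * (n / d + 1) := by
  show ((readAll _ _).addrs _).length = _
  rw [readAll_addrs, cells, List.length_map, Finset.length_toList, Finset.card_univ]
  simp

lemma zip_map_self {α β : Type} (L : List α) (m : α → β) :
    L.zip (L.map m) = L.map (fun a => (a, m a)) := by
  induction L with
  | nil => rfl
  | cons a L ih => simp [ih]

lemma sum_blocks {d : ℕ} (hd : 0 < d) (F : ℕ → ZMod 2) (hF : ∀ j, n ≤ j → F j = 0) :
    ∑ b : Fin (n / d + 1), ∑ t : Fin d, F (b * d + t) = ∑ c : Fin n, F c := by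
  have h1 : ∑ b : Fin (n / d + 1), ∑ t : Fin d, F (b * d + t) =
      ∑ j : Fin ((n / d + 1) * d), F j := by
    rw [← Fintype.sum_prod_type' (f := fun (b : Fin (n / d + 1)) (t : Fin d) => F (b * d + t))]
    apply Fintype.sum_equiv finProdFinEquiv
    rintro ⟨b, t⟩
    congr 1
    simp only [finProdFinEquiv_apply_val]
    ring
  rw [h1, Finset.sum_range (fun j => F j) |>.symm, Finset.sum_range (fun j => F j) |>.symm]
  symm
  apply Finset.sum_subset
  · intro j hj
    rw [Finset.mem_range] at hj ⊢
    have h2 := Nat.div_add_mod n d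
    have h3 := Nat.mod_lt n hd
    calc j < n := hj
      _ ≤ (n / d + 1) * d := by rw [add_mul, one_mul, mul_comm]; omega
  · intro j _ hj
    rw [Finset.mem_range] at hj
    exact hF j (not_lt.1 hj)

lemma blockAlg_answer {d w : ℕ} (hd : 0 < d) (hw : 0 < w) (M : Mat n) (vs : Fin n → Vec n)
    (q r : Fin n) : (blockAlg n d w hw).answer () M vs q r = some (M.mulVec (vs q) r) := by
  have h0 : (blockAlg n d w hw).answer () M vs q = outF (d := d) hw (vs q)
      ((cells d w (vs q)).map ((blockAlg n d w hw).mem () M (before vs q))) := readAll_out _ _ _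
  rw [h0]
  unfold outF
  congr 1
  set v := vs q with hv
  rw [zip_map_self, List.map_map]
  unfold cells
  rw [List.map_map, Finset.sum_map_toList, Fintype.sum_prod_type]
  have hr : (r : ℕ) / w < n / w + 1 := Nat.lt_succ_of_le (Nat.div_le_div_right r.2.le)
  rw [Finset.sum_eq_single (⟨(r : ℕ) / w, hr⟩ : Fin (n / w + 1))]
  · have h01 : ∀ a : ZMod 2, (if decide (a = 1) = true then (1 : ZMod 2) else 0) = a := by decide
    have h1 : ∀ b : Fin (n / d + 1), ((fun p : Adr n d w × (Fin w → Bool) =>
        if (p.1.1.1 : ℕ) = (r : ℕ) / w then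
          (if p.2 ⟨(r : ℕ) % w, Nat.mod_lt _ hw⟩ = true then (1 : ZMod 2) else 0) else 0) ∘
        (fun a => (a, (blockAlg n d w hw).mem () M (before vs q) a)) ∘
        (fun gb : Fin (n / w + 1) × Fin (n / d + 1) =>
          ((gb, fun t => vext v (gb.2 * d + t)) : Adr n d w)))
        (⟨(r : ℕ) / w, hr⟩, b) = ∑ t : Fin d, ext M r (b * d + t) * vext v (b * d + t) := by
      intro b
      simp only [Function.comp_apply, if_true, blockAlg]
      rw [h01]
      rw [mul_comm ((r : ℕ) / w) w, Nat.div_add_mod]
    refine Eq.trans (Finset.sum_congr rfl (fun b _ => h1 b)) ?_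
    rw [sum_blocks hd (fun j => ext M r j * vext v j) (by
        intro j hj
        unfold vext
        rw [dif_neg (by omega), mul_zero])]
    unfold Matrix.mulVec dotProduct
    apply Finset.sum_congr rfl
    intro c _
    unfold ext vext
    rw [dif_pos ⟨r.2, c.2⟩, dif_pos c.2]
  · intro g _ hg
    apply Finset.sum_eq_zero
    intro b _
    simp only [Function.comp_apply]
    rw [if_neg]
    intro h
    exact hg (Fin.ext h)
  · intro h
    exact absurd (Finset.mem_univ _) h

lemma blockAlg_degree {d w : ℕ} (hd : 0 < d) (hw : 0 < w) (K : Type) [Field K] :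
    (blockAlg n d w hw).DegreeLE K d := by
  intro ω h a l
  set S : Finset (Fin n × Fin n) := univ.filter
    (fun e => (e.1 : ℕ) = a.1.1 * w + l ∧ (e.2 : ℕ) / d = a.1.2) with hS
  have hcard : S.card ≤ d := by
    have h2 : S.card ≤ (Finset.Ico ((a.1.2 : ℕ) * d) (a.1.2 * d + d)).card := by
      apply Finset.card_le_card_of_injOn (fun e : Fin n × Fin n => (e.2 : ℕ))
      · intro e he
        rw [Finset.mem_coe, hS, Finset.mem_filter] at he
        rw [Finset.mem_coe, Finset.mem_Ico, ← he.2.2]
        beta_reduce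
        have h3 := Nat.div_add_mod (e.2 : ℕ) d
        have h4 := Nat.mod_lt (e.2 : ℕ) hd
        rw [mul_comm] at h3
        omega
      · intro e he e' he' h
        rw [Finset.mem_coe, hS, Finset.mem_filter] at he he'
        exact Prod.ext (Fin.ext (he.2.1.trans he'.2.1.symm)) (Fin.ext h)
    rw [Nat.card_Ico] at h2
    omega
  obtain ⟨P, h1, h2⟩ := exists_polyK (K := K) S
    (fun x => if (blockAlg n d w hw).mem ω (ofBits x) h a l = true then (1 : K) else 0) (by
      intro x y hxy
      have h3 : ∀ t : Fin d, ext (ofBits x) (a.1.1 * w + l) (a.1.2 * d + t) =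
          ext (ofBits y) (a.1.1 * w + l) (a.1.2 * d + t) := by
        intro t
        unfold ext
        split_ifs with h4
        · unfold ofBits
          rw [hxy]
          rw [hS, Finset.mem_filter]
          refine ⟨Finset.mem_univ _, rfl, ?_⟩
          show ((a.1.2 : ℕ) * d + t) / d = a.1.2
          rw [mul_comm, Nat.mul_add_div hd, Nat.div_eq_of_lt t.2, add_zero]
        · rfl
      have h4 : (blockAlg n d w hw).mem ω (ofBits x) h a l =
          (blockAlg n d w hw).mem ω (ofBits y) h a l := by
        have h5 : ∑ t : Fin d, ext (ofBits x) (a.1.1 * w + l) (a.1.2 * d + t) * a.2 t =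
            ∑ t : Fin d, ext (ofBits y) (a.1.1 * w + l) (a.1.2 * d + t) * a.2 t :=
          Finset.sum_congr rfl (fun t _ => by rw [h3])
        show decide (_ = 1) = decide (_ = 1)
        rw [h5]
      rw [h4])
  refine ⟨P, h1.trans hcard, ?_⟩
  intro M
  obtain ⟨x, rfl⟩ := exists_bits M
  rw [ofBits_one, h2]

end Pool.Agent.R617.OD
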